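import Pool.Agent.H64.FB.Targets

open Topology Set
open Pool.Agent.H59 Pool.Agent.H64.LB
open scoped unitInterval ContinuousMap Topology.Homotopy

namespace Pool.Agent.H64.FB

theorem cen : T_CEN := by
  intro Y _ y₀ hc g h
  induction g using Path.Homotopic.Quotient.ind with
  | mk a =>
  induction h using Path.Homotopic.Quotient.ind with
  | mk b =>
  obtain ⟨k, k0, k1, hk⟩ := hc a
  let H : ContinuousMap.Homotopy (ContinuousMap.id Y) (ContinuousMap.id Y) :=
    { toFun := fun p => k (p.2, p.1)
      continuous_toFun := by fun_prop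
      map_zero_left := k0
      map_one_left := k1 }
  have h1 := Path.Homotopic.map_trans_evalAt H b
  have e1 : H.evalAt y₀ = trk k k0 k1 y₀ := rfl
  rw [e1] at h1
  have h2 : (b.trans a).Homotopic (a.trans b) := by
    refine Path.Homotopic.trans (Path.Homotopic.hcomp (Path.Homotopic.refl b) hk.symm) ?_
    exact Path.Homotopic.trans h1 (Path.Homotopic.hcomp hk (Path.Homotopic.refl b))
  exact Path.Homotopic.Quotient.eq.2 h2

end Pool.Agent.H64.FB
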