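import Pool.Agent.H64.LB.Targets
import Pool.Agent.H93.SP.Targets
import Pool.Agent.H93.FB.Defs

/-!
# Block F (rational Whitehead theorem, kernel part): definitions
-/

open Topology Set
open Pool.Agent.H59 Pool.Agent.H64.LB
open scoped unitInterval ContinuousMap Topology.Homotopy

namespace Pool.Agent.H64.FB

/-- the track of a point under a homotopy from the identity to the identity -/
def trk {Y : Type} [TopologicalSpace Y] (h : C(Y × I, Y)) (h0 : ∀ y, h (y, 0) = y)
    (h1 : ∀ y, h (y, 1) = y) (y : Y) : Path y y where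
  toFun t := h (y, t)
  continuous_toFun := by fun_prop
  source' := h0 y
  target' := h1 y

/-- Every loop at `y₀` is homotopic to the track of a homotopy from the identity to itself. -/
def HC (Y : Type) [TopologicalSpace Y] (y₀ : Y) : Prop :=
  ∀ l : Path y₀ y₀, ∃ (h : C(Y × I, Y)) (h0 : ∀ y, h (y, 0) = y) (h1 : ∀ y, h (y, 1) = y),
    (trk h h0 h1 y₀).Homotopic l

/-- all reduced rational homology vanishes -/
def AC (Y : Type) [TopologicalSpace Y] : Prop := ∀ q, Acyc ℚ q Y

/-- the reduced rational homology of the universal cover vanishes -/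
def ACC (Y : Type) [TopologicalSpace Y] (y₀ : Y) : Prop :=
  ∀ (q : ℕ) (z : Pool.Agent.H93.FB.CC y₀ (q + 1)), Pool.Agent.H93.FB.cbd y₀ q z = 0 →
    ∃ w, Pool.Agent.H93.FB.cbd y₀ (q + 1) w = z

/-- the constant map from the point -/
def cpt {Y : Type} [TopologicalSpace Y] (y₀ : Y) : C(PUnit, Y) := ContinuousMap.const PUnit y₀

/-- the space of null-homotopic loops, as a fibre -/
abbrev NLF (Y : Type) [TopologicalSpace Y] (y₀ : Y) : Type :=
  Pool.Agent.H93.FB.F0 (cpt y₀) PUnit.unit

/-- the constant loop -/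
noncomputable def NLF.base {Y : Type} [TopologicalSpace Y] (y₀ : Y) : NLF Y y₀ :=
  Pool.Agent.H93.FB.star (cpt y₀) PUnit.unit

/-- the space of null-homotopic loops -/
abbrev NL (Y : Type) [TopologicalSpace Y] (y₀ : Y) : Type :=
  {l : Path y₀ y₀ // l.Homotopic (Path.refl y₀)}

/-- the constant loop -/
def NL.base {Y : Type} [TopologicalSpace Y] (y₀ : Y) : NL Y y₀ :=
  ⟨Path.refl y₀, Path.Homotopic.refl _⟩

/-- the homotopy fibre -/
abbrev Fib {A B : Type} [TopologicalSpace A] [TopologicalSpace B] (f : C(A, B)) (b₀ : B) : Type :=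
  {p : A × C(I, B) // p.2 0 = f p.1 ∧ p.2 1 = b₀}

/-- the base point of the homotopy fibre -/
def Fib.base {A B : Type} [TopologicalSpace A] [TopologicalSpace B] (f : C(A, B)) (a₀ : A) :
    Fib f (f a₀) :=
  ⟨(a₀, ContinuousMap.const I (f a₀)), rfl, rfl⟩

/-- every element has finite order -/
def Tors (G : Type) [Monoid G] : Prop := ∀ g : G, ∃ n : ℕ, 1 ≤ n ∧ g ^ n = 1

end Pool.Agent.H64.FB
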