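import Pool.Agent.H64.FB.Targets
import Pool.Agent.H59.Connect

open Topology Set
open Pool.Agent.H59 Pool.Agent.H64.LB
open scoped unitInterval ContinuousMap Topology.Homotopy

namespace Pool.Agent.H64.FB

theorem contractible_I : ContractibleSpace I :=
  (convex_Icc (0 : ℝ) 1).contractibleSpace ⟨0, by simp⟩

instance instSCI : SimplyConnectedSpace I :=
  have := contractible_I
  inferInstance

theorem PQ_map_trans {X Y : Type} [TopologicalSpace X] [TopologicalSpace Y] (f : C(X, Y))
    {a b c : X} (p : Path.Homotopic.Quotient a b) (q : Path.Homotopic.Quotient b c) :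
    (p.trans q).map f = (p.map f).trans (q.map f) := by
  induction p using Path.Homotopic.Quotient.ind with
  | mk p =>
  induction q using Path.Homotopic.Quotient.ind with
  | mk q =>
  rw [← Path.Homotopic.Quotient.mk_trans, ← Path.Homotopic.Quotient.mk_map,
    ← Path.Homotopic.Quotient.mk_map, ← Path.Homotopic.Quotient.mk_map, Path.map_trans,
    Path.Homotopic.Quotient.mk_trans]

section phi

variable {Y : Type} [TopologicalSpace Y] {y₀ : Y}

/-- the unique class in a simply connected space -/
noncomputable def uq {K : Type} [TopologicalSpace K] [SimplyConnectedSpace K] (t t' : K) :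
    Path.Homotopic.Quotient t t' :=
  Path.Homotopic.Quotient.mk (PathConnectedSpace.somePath t t')

/-- the loop class of a path in `K` -/
noncomputable def Phi {K : Type} [TopologicalSpace K] [SimplyConnectedSpace K]
    (C : ∀ y : Y, Path.Homotopic.Quotient y₀ y) (τ : C(K, Y)) (t t' : K) :
    Path.Homotopic.Quotient y₀ y₀ :=
  (C (τ t)).trans (((uq t t').map τ).trans (C (τ t')).symm)

variable {K : Type} [TopologicalSpace K] [SimplyConnectedSpace K]
    (C : ∀ y : Y, Path.Homotopic.Quotient y₀ y)

theorem Phi_eq (τ : C(K, Y)) (t t' : K) (p : Path.Homotopic.Quotient t t') :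
    Phi C τ t t' = (C (τ t)).trans ((p.map τ).trans (C (τ t')).symm) := by
  rw [Phi, Subsingleton.elim (uq t t') p]

theorem Phi_trans (τ : C(K, Y)) (t t' t'' : K) :
    (Phi C τ t t').trans (Phi C τ t' t'') = Phi C τ t t'' := by
  rw [Phi_eq C τ t t'' ((uq t t').trans (uq t' t'')), Phi, Phi]
  rw [PQ_map_trans]
  simp only [Path.Homotopic.Quotient.trans_assoc]
  congr 2
  rw [← Path.Homotopic.Quotient.trans_assoc (C (τ t')).symm,
    Path.Homotopic.Quotient.symm_trans, Path.Homotopic.Quotient.refl_trans]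

theorem Phi_comp {K' : Type} [TopologicalSpace K'] [SimplyConnectedSpace K'] (τ : C(K, Y))
    (g : C(K', K)) (t t' : K') : Phi C (τ.comp g) t t' = Phi C τ (g t) (g t') := by
  rw [Phi_eq C τ (g t) (g t') ((uq t t').map g), Phi, ← Path.Homotopic.Quotient.map_comp]
  rfl

theorem Phi_aux (a b : Y) (ha : a = y₀) (hb : b = y₀) (q : Path a b) (l : Path y₀ y₀)
    (h : ∀ t, q t = l t) :
    (C a).trans ((Path.Homotopic.Quotient.mk q).trans (C b).symm) =
      (C y₀).trans ((Path.Homotopic.Quotient.mk l).trans (C y₀).symm) := by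
  subst ha
  subst hb
  have : q = l := Path.ext (funext h)
  rw [this]

theorem Phi_path (l : Path y₀ y₀) :
    Phi C l.toContinuousMap 0 1 =
      (C y₀).trans ((Path.Homotopic.Quotient.mk l).trans (C y₀).symm) := by
  rw [Phi_eq C l.toContinuousMap 0 1 (Path.Homotopic.Quotient.mk unitInterval.path01)]
  exact Phi_aux C _ _ l.source l.target (unitInterval.path01.map l.toContinuousMap.continuous) l
    (fun t => rfl)

end phi

/-- a loop class as an element of the fundamental group -/
def toG {Y : Type} [TopologicalSpace Y] {y₀ : Y} (p : Path.Homotopic.Quotient y₀ y₀) :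
    FundamentalGroup Y y₀ := p

theorem toG_mul {Y : Type} [TopologicalSpace Y] {y₀ : Y} (p q : Path.Homotopic.Quotient y₀ y₀) :
    toG q * toG p = toG (p.trans q) := rfl

theorem toG_inv {Y : Type} [TopologicalSpace Y] {y₀ : Y} (p : Path.Homotopic.Quotient y₀ y₀) :
    toG p.symm = (toG p)⁻¹ := rfl

/-- clearing denominators -/
theorem clear_den {α : Type} (w : α →₀ ℚ) :
    ∃ (n : ℕ) (w' : α →₀ ℤ), 1 ≤ n ∧ red ℚ α w' = (n : ℚ) • w := by
  induction w using Finsupp.induction_linear with
  | zero => exact ⟨1, 0, le_rfl, by simp⟩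
  | add f g hf hg =>
    obtain ⟨n, u, hn, hu⟩ := hf
    obtain ⟨m, v, hm, hv⟩ := hg
    refine ⟨n * m, (m : ℤ) • u + (n : ℤ) • v, Nat.one_le_iff_ne_zero.2 (by positivity), ?_⟩
    rw [map_add, red_zsmul, red_zsmul, hu, hv]
    simp only [smul_add, smul_smul, Int.cast_natCast, Nat.cast_mul]
    rw [mul_comm (m : ℚ) n]
  | single a r =>
    refine ⟨r.den, Finsupp.single a r.num, r.pos, ?_⟩
    rw [red_single, Finsupp.smul_single, smul_eq_mul, Rat.den_mul_eq_num]

theorem red_injective {α : Type} : Function.Injective (red ℚ α) := by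
  intro x y h
  ext a
  have := congrArg (fun f => f a) h
  simpa [red] using this

theorem red_bd {Y : Type} [TopologicalSpace Y] (n : ℕ) (x : Ch ℤ (n + 1) Y) :
    red ℚ _ (bd ℤ n Y x) = bd ℚ n Y (red ℚ _ x) := by
  induction x using Finsupp.induction_linear with
  | zero => simp
  | add f g hf hg => rw [map_add, map_add, map_add, map_add, hf, hg]
  | single a r =>
    rw [bd_single, red_single, bd_single, red_zsmul, map_sum]
    congr 1
    refine Finset.sum_congr rfl (fun i _ => ?_)
    rw [red_zsmul, red_single]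
    simp

theorem hu1 : T_HU1 := by
  intro Y _ _ y₀ hcomm hac g
  induction g using Path.Homotopic.Quotient.ind with
  | mk l =>
  let C : ∀ y : Y, Path.Homotopic.Quotient y₀ y := fun y =>
    Path.Homotopic.Quotient.mk (PathConnectedSpace.somePath y₀ y)
  let cg : CommGroup (FundamentalGroup Y y₀) :=
    { (inferInstance : Group (FundamentalGroup Y y₀)) with mul_comm := hcomm }
  let χ0 : Smp 2 Y → FundamentalGroup Y y₀ := fun e =>
    toG (Phi C e (stdSimplex.vertex 0) (stdSimplex.vertex 1))
  let χ : Ch ℤ 2 Y →ₗ[ℤ] Additive (FundamentalGroup Y y₀) :=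
    Finsupp.linearCombination ℤ (fun e => Additive.ofMul (χ0 e))
  have hχ : ∀ x : Ch ℤ 3 Y, χ (bd ℤ 2 Y x) = 0 := by
    intro x
    refine lin_ext (f := χ.comp (bd ℤ 2 Y)) (g := 0) (fun τ => ?_) x
    rw [LinearMap.comp_apply, bd_single, one_smul, map_sum, LinearMap.zero_apply,
      Fin.sum_univ_three]
    simp only [map_smul, χ, Finsupp.linearCombination_single, one_smul]
    have h0 : ∀ i : Fin 3, χ0 (fc τ i) = toG (Phi C τ (stdSimplex.vertex (i.succAbove 0))
        (stdSimplex.vertex (i.succAbove 1))) := by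
      intro i
      change toG (Phi C (τ.comp (cf i)) _ _) = _
      rw [Phi_comp, cf_vertex, cf_vertex]
    rw [h0 0, h0 1, h0 2]
    have e1 : (0 : Fin 3).succAbove (0 : Fin 2) = 1 := rfl
    have e2 : (0 : Fin 3).succAbove (1 : Fin 2) = 2 := rfl
    have e3 : (1 : Fin 3).succAbove (0 : Fin 2) = 0 := rfl
    have e4 : (1 : Fin 3).succAbove (1 : Fin 2) = 2 := rfl
    have e5 : (2 : Fin 3).succAbove (0 : Fin 2) = 0 := rfl
    have e6 : (2 : Fin 3).succAbove (1 : Fin 2) = 1 := rfl
    rw [e1, e2, e3, e4, e5, e6]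
    have key := Phi_trans C τ (stdSimplex.vertex 0) (stdSimplex.vertex 1) (stdSimplex.vertex 2)
    rw [← key, ← toG_mul]
    simp only [Fin.val_zero, pow_zero, one_smul, Fin.val_one, pow_one, neg_smul, Fin.val_two,
      ofMul_mul]
    norm_num
  -- the cycle of the loop
  have hz : bd ℚ 1 Y (Finsupp.single (toSmp l) 1) = 0 := by
    rw [bd_single, one_smul, Fin.sum_univ_two]
    have hf : fc (toSmp l) 0 = fc (toSmp l) 1 := by
      apply smp_one_ext
      change (toSmp l) (cf 0 (stdSimplex.vertex 0)) = (toSmp l) (cf 1 (stdSimplex.vertex 0))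
      rw [cf_vertex, cf_vertex]
      have e1 : (0 : Fin 2).succAbove (0 : Fin 1) = 1 := rfl
      have e2 : (1 : Fin 2).succAbove (0 : Fin 1) = 0 := rfl
      rw [e1, e2]
      change l (iv _) = l (iv _)
      have i1 : iv (stdSimplex.vertex 1) = 1 := by
        apply Subtype.ext
        rw [iv_coe]
        simp
      have i0 : iv (stdSimplex.vertex 0) = 0 := by
        apply Subtype.ext
        rw [iv_coe]
        simp
      rw [i1, i0, l.source, l.target]
    rw [hf]
    simp
  obtain ⟨w, hw⟩ := hac _ hz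
  obtain ⟨n, w', hn, hw'⟩ := clear_den w
  have hint : bd ℤ 2 Y w' = (n : ℤ) • Finsupp.single (toSmp l) 1 := by
    apply red_injective
    rw [red_bd, hw', map_smul, hw, red_zsmul, red_single]
    simp
  have h1 := hχ w'
  rw [hint, map_smul] at h1
  simp only [χ, Finsupp.linearCombination_single, one_smul] at h1
  have h2 : (χ0 (toSmp l)) ^ n = 1 := by
    have := congrArg Additive.toMul h1
    simpa using this
  refine ⟨n, hn, ?_⟩
  have i1 : iv (stdSimplex.vertex 1) = 1 := by
    apply Subtype.ext
    rw [iv_coe]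
    simp
  have i0 : iv (stdSimplex.vertex 0) = 0 := by
    apply Subtype.ext
    rw [iv_coe]
    simp
  have h3 : χ0 (toSmp l) = toG (Phi C l.toContinuousMap 0 1) := by
    change toG (Phi C (l.toContinuousMap.comp iv) _ _) = _
    rw [Phi_comp, i0, i1]
  rw [h3, Phi_path, ← toG_mul, ← toG_mul, toG_inv, mul_comm, ← mul_assoc, mul_inv_cancel,
    one_mul] at h2
  exact h2

end Pool.Agent.H64.FB
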