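import Pool.Agent.H64.FB.Defs

/-!
# Block F (rational Whitehead theorem, kernel part): targets, covering part and loop space
induction
-/

open Topology Set
open Pool.Agent.H59 Pool.Agent.H64.LB Pool.Agent.H93.FB
open scoped unitInterval ContinuousMap Topology.Homotopy

namespace Pool.Agent.H64.FB

/-- Hurewicz in degree one, rationally. -/
def T_HU1 : Prop :=
  ∀ (Y : Type) [TopologicalSpace Y] [PathConnectedSpace Y] (y₀ : Y),
    (∀ g h : FundamentalGroup Y y₀, g * h = h * g) → Acyc ℚ 1 Y → Tors (FundamentalGroup Y y₀)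

/-- Tracks are central. -/
def T_CEN : Prop :=
  ∀ (Y : Type) [TopologicalSpace Y] (y₀ : Y), HC Y y₀ →
    ∀ g h : FundamentalGroup Y y₀, g * h = h * g

/-! ### The covering part -/

/-- chains of the universal cover are killed in the base iff they are sums of `g e - e` -/
def T_CVK : Prop :=
  ∀ (Y : Type) [TopologicalSpace Y] (y₀ : Y) (n : ℕ) (x : CC y₀ (n + 1)),
    fgC y₀ (n + 1) x = 0 → ∃ (r : ℕ) (g : Fin r → PQ y₀ y₀) (e : Fin r → CC y₀ (n + 1)),
      x = ∑ i, (actC (g i) (n + 1) (e i) - e i)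

/-- chains of the base lift -/
def T_CVS : Prop :=
  ∀ (Y : Type) [TopologicalSpace Y] [PathConnectedSpace Y] (y₀ : Y) (n : ℕ),
    Function.Surjective (fgC y₀ (n + 1))

/-- the lift to a simplex of the universal cover of the homotopy `h` -/
def T_CVL : Prop :=
  ∀ (Y : Type) [TopologicalSpace Y] (y₀ : Y) (h : C(Y × I, Y)) (h0 : ∀ y, h (y, 0) = y)
    (h1 : ∀ y, h (y, 1) = y), ∃ S : ∀ n, CS y₀ (n + 1) → Leg y₀ (Dl (n + 1) × I),
    (∀ (n : ℕ) (s : CS y₀ (n + 1)),
      (S n s).comp ((ContinuousMap.id _).prodMk (ContinuousMap.const _ 0)) = s) ∧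
    (∀ (n : ℕ) (s : CS y₀ (n + 1)),
      (S n s).comp ((ContinuousMap.id _).prodMk (ContinuousMap.const _ 1)) =
        Leg.act (Path.Homotopic.Quotient.mk (trk h h0 h1 y₀)) s) ∧
    (∀ (n : ℕ) (s : CS y₀ (n + 2)) (i : Fin (n + 2)),
      (S (n + 1) s).comp ((cf i).prodMap (ContinuousMap.id _)) = S n (cfc s i))

/-- the action of a track on chains of the universal cover is chain homotopic to the identity -/
def T_CVP : Prop :=
  ∀ (Y : Type) [TopologicalSpace Y] (y₀ : Y) (h : C(Y × I, Y)) (h0 : ∀ y, h (y, 0) = y)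
    (h1 : ∀ y, h (y, 1) = y), ∃ P : ∀ n, CC y₀ n →ₗ[ℚ] CC y₀ (n + 1), P 0 = 0 ∧
      ∀ (n : ℕ) (x : CC y₀ (n + 1)), cbd y₀ (n + 1) (P (n + 1) x) =
        actC (Path.Homotopic.Quotient.mk (trk h h0 h1 y₀)) (n + 1) x - x - P n (cbd y₀ n x)

/-- acyclicity lifts to the universal cover -/
def T_COV : Prop :=
  ∀ (Y : Type) [TopologicalSpace Y] [PathConnectedSpace Y] (y₀ : Y), HC Y y₀ → AC Y → ACC Y y₀

/-! ### Loop space induction -/

/-- paths in `EE f` with constant end point stay in the fibre -/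
def T_STF : Prop :=
  ∀ (A B : Type) [TopologicalSpace A] [TopologicalSpace B] [SimplyConnectedSpace A]
    (f : C(A, B)) (a₀ : A) (X : Type) [TopologicalSpace X] [PathConnectedSpace X]
    (φ : C(X, EE f)) (x₀ : X), (∀ x, EE.endp f (φ x) = f a₀) →
      clf f a₀ (φ x₀) = BT.one (f a₀) → ∀ x, clf f a₀ (φ x) = BT.one (f a₀)

/-- The fibre over the base point of the universal cover is path connected. -/
def T_FPC : Prop :=
  ∀ (A B : Type) [TopologicalSpace A] [TopologicalSpace B] [SimplyConnectedSpace A]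
    (f : C(A, B)) (a₀ : A), PathConnectedSpace (F0 f a₀)

/-- The fibre over the base point of the universal cover has the property `HC`. -/
def T_FHC : Prop :=
  ∀ (A B : Type) [TopologicalSpace A] [TopologicalSpace B] [SimplyConnectedSpace A]
    (f : C(A, B)) (a₀ : A), HC (F0 f a₀) (star f a₀)

/-- The space of null-homotopic loops is acyclic if the universal cover is (fibration lemma). -/
def T_TC : Prop :=
  ∀ (Y : Type) [TopologicalSpace Y] [PathConnectedSpace Y] (y₀ : Y), ACC Y y₀ → AC (NLF Y y₀)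

/-- The homotopy fibre of a homology isomorphism of simply connected spaces is acyclic
(fibration lemma). -/
def T_ACFF : Prop :=
  ∀ (A B : Type) [TopologicalSpace A] [TopologicalSpace B] [SimplyConnectedSpace A]
    [SimplyConnectedSpace B] (f : C(A, B)) (a₀ : A),
    (∀ q, Function.Bijective (HH.map ℚ q f)) → AC (F0 f a₀)

/-- Torsion of `π_(k+1)` of the null-homotopic loops gives torsion of `π_(k+2)`. -/
def T_CURF : Prop :=
  ∀ (Y : Type) [TopologicalSpace Y] (y₀ : Y) (k : ℕ),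
    Tors (HomotopyGroup.Pi (k + 1) (NLF Y y₀) (NLF.base y₀)) →
      Tors (HomotopyGroup.Pi (k + 2) Y y₀)

/-- Exactness in the middle: spheres which die in `B` come from the fibre. -/
def T_EXF : Prop :=
  ∀ (A B : Type) [TopologicalSpace A] [TopologicalSpace B] [SimplyConnectedSpace A]
    (f : C(A, B)) (a₀ : A) (k : ℕ)
    (p : GenLoop (Fin (k + 1)) A a₀) (p' : GenLoop (Fin (k + 1)) B (f a₀)),
    (∀ y, p' y = f (p y)) → GenLoop.Homotopic p' GenLoop.const →
      ∃ P : GenLoop (Fin (k + 1)) (F0 f a₀) (star f a₀), ∀ y, EE.pa f (P y).1 = p y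

/-! ### The same targets for the space of null-homotopic loops and the homotopy fibre as
subspaces of path spaces (not needed) -/

/-- The space of null-homotopic loops is path connected and has the property `HC`. -/
def T_GL : Prop :=
  ∀ (Y : Type) [TopologicalSpace Y] (y₀ : Y),
    PathConnectedSpace (NL Y y₀) ∧ HC (NL Y y₀) (NL.base y₀)

/-- The homotopy fibre of a map between simply connected spaces is path connected and has the
property `HC`. -/
def T_GF : Prop :=
  ∀ (A B : Type) [TopologicalSpace A] [TopologicalSpace B] [SimplyConnectedSpace A]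
    [SimplyConnectedSpace B] (f : C(A, B)) (a₀ : A),
    PathConnectedSpace (Fib f (f a₀)) ∧ HC (Fib f (f a₀)) (Fib.base f a₀)

/-- The space of null-homotopic loops of a good acyclic space is acyclic. -/
def T_ACL : Prop :=
  ∀ (Y : Type) [TopologicalSpace Y] [PathConnectedSpace Y] (y₀ : Y), HC Y y₀ → AC Y →
    AC (NL Y y₀)

/-- The homotopy fibre of a homology isomorphism of simply connected spaces is acyclic. -/
def T_ACF : Prop :=
  ∀ (A B : Type) [TopologicalSpace A] [TopologicalSpace B] [SimplyConnectedSpace A]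
    [SimplyConnectedSpace B] (f : C(A, B)) (a₀ : A),
    (∀ q, Function.Bijective (HH.map ℚ q f)) → AC (Fib f (f a₀))

/-- Torsion of `π_(k+1)` of the null-homotopic loops gives torsion of `π_(k+2)`. -/
def T_CUR : Prop :=
  ∀ (Y : Type) [TopologicalSpace Y] (y₀ : Y) (k : ℕ),
    Tors (HomotopyGroup.Pi (k + 1) (NL Y y₀) (NL.base y₀)) →
      Tors (HomotopyGroup.Pi (k + 2) Y y₀)

/-- Exactness in the middle: spheres which die in `B` come from the homotopy fibre. -/
def T_EX : Prop :=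
  ∀ (A B : Type) [TopologicalSpace A] [TopologicalSpace B] (f : C(A, B)) (a₀ : A) (k : ℕ)
    (p : GenLoop (Fin k) A a₀) (p' : GenLoop (Fin k) B (f a₀)), (∀ y, p' y = f (p y)) →
    GenLoop.Homotopic p' GenLoop.const →
      ∃ P : GenLoop (Fin k) (Fib f (f a₀)) (Fib.base f a₀), ∀ y, (P y).1.1 = p y

/-! ### Assembly -/

/-- Torsion of all homotopy groups of good acyclic spaces. -/
theorem tors (hHU1 : T_HU1) (hCEN : T_CEN) (hCOV : T_COV) (hTC : T_TC) (hFPC : T_FPC)
    (hFHC : T_FHC) (hCUR : T_CURF) (k : ℕ) :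
    ∀ (Y : Type) [TopologicalSpace Y] [PathConnectedSpace Y] (y₀ : Y), HC Y y₀ → AC Y →
      Tors (HomotopyGroup.Pi (k + 1) Y y₀) := by
  induction k with
  | zero =>
    intro Y _ _ y₀ hc ha g
    let e := HomotopyGroup.pi1MulEquivFundamentalGroup (X := Y) (x := y₀)
    obtain ⟨n, hn, h⟩ := hHU1 Y y₀ (hCEN Y y₀ hc) (ha 1) (e g)
    refine ⟨n, hn, e.injective ?_⟩
    rw [map_pow, h, map_one]
  | succ k ih =>
    intro Y _ _ y₀ hc ha
    have h1 : PathConnectedSpace (NLF Y y₀) := hFPC PUnit Y (cpt y₀) PUnit.unit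
    have h2 : HC (NLF Y y₀) (NLF.base y₀) := hFHC PUnit Y (cpt y₀) PUnit.unit
    exact hCUR Y y₀ k (ih (NLF Y y₀) (NLF.base y₀) h2 (hTC Y y₀ (hCOV Y y₀ hc ha)))

/-- The final assembly. -/
theorem rw_of (hHU1 : T_HU1) (hCEN : T_CEN) (hCOV : T_COV) (hTC : T_TC) (hFPC : T_FPC)
    (hFHC : T_FHC) (hCUR : T_CURF) (hACFF : T_ACFF) (hEX : T_EXF) (hPF : Pool.Agent.H93.SPB.T_PF) :
    Pool.Agent.H93.SPB.T_RW := by
  intro A B _ _ _ _ f hf k a b hab p p' hp' hone
  subst hab
  have hnull : GenLoop.Homotopic p' GenLoop.const := by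
    rw [HomotopyGroup.one_def] at hone
    exact Quotient.exact hone
  obtain ⟨P, hP⟩ := hEX A B f a k p p' hp' hnull
  have h1 : PathConnectedSpace (F0 f a) := hFPC A B f a
  have ht := tors hHU1 hCEN hCOV hTC hFPC hFHC hCUR k (F0 f a) (star f a) (hFHC A B f a)
    (hACFF A B f a hf)
  obtain ⟨n, hn, hg⟩ := ht (Pool.Agent.H93.SPB.hcl P)
  let pr : C(F0 f a, A) := (EE.pa f).comp (F0.inc f a)
  obtain ⟨F, hF⟩ := hPF (F0 f a) A pr (star f a) a rfl k
  have h3 : F (Pool.Agent.H93.SPB.hcl P) = Pool.Agent.H93.SPB.hcl p :=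
    hF P p (fun y => (hP y).symm)
  refine ⟨n, hn, ?_⟩
  rw [← h3, ← map_pow, hg, map_one]

end Pool.Agent.H64.FB
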